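import Pool.Agent.Helper84.LC.T5

/-!
# LC-T5, second part: fine subdivisions of triangles
-/

set_option autoImplicit false

namespace Pool.Agent.Helper26.LC

open Finset

section labels

variable {V : Type*} [DecidableEq V]

/-- The edges with labels `a`, `b`. -/
def lab (a b u w : V) : ZMod 2 := if (u = a ∧ w = b) ∨ (u = b ∧ w = a) then 1 else 0

theorem zExt_eq_lab (z : Finset V → ZMod 2) {a b c : V} (hab : a ≠ b) (hac : a ≠ c) (hbc : b ≠ c)
    {u v w : V} (hu : u = a ∨ u = b ∨ u = c) (hv : v = a ∨ v = b ∨ v = c)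
    (hw : w = a ∨ w = b ∨ w = c) :
    zExt z u v w = z {a, b, c} * (lab a b v w + lab a b u w + lab a b u v) := by
  have h11 : (1 : ZMod 2) + 1 = 0 := CharTwo.add_self_eq_zero _
  have hba := hab.symm
  have hca := hac.symm
  have hcb := hbc.symm
  have habc : zExt z a b c = z {a, b, c} := by
    unfold zExt
    rw [if_pos ⟨hab, hac, hbc⟩]
  rcases hu with rfl | rfl | rfl <;> rcases hv with rfl | rfl | rfl <;>
    rcases hw with rfl | rfl | rfl
  all_goals first
    | (simp [zExt, lab, hab, hac, hbc, hba, hca, hcb, h11]; done)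
    | (simp [zExt, lab, hab, hac, hbc, hba, hca, hcb]
       congr 1
       ext x
       simp only [mem_insert, mem_singleton]
       tauto)

end labels

section triangle

variable {V : Type*} [DecidableEq V]

/-- The points of a segment. -/
def seg (a b : V) (x : ℝ) : V → ℝ := fun v =>
  (1 - x) * (if v = a then 1 else 0) + x * (if v = b then 1 else 0)

/-- The points of a triangle. -/
def tri (a b c : V) (x y : ℝ) : V → ℝ := fun v =>
  (1 - x - y) * (if v = a then 1 else 0) + x * (if v = b then 1 else 0) +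
    y * (if v = c then 1 else 0)

theorem tri_zero_right (a b c : V) (x : ℝ) : tri a b c x 0 = seg a b x := by
  funext v; unfold tri seg; ring

theorem tri_zero_left (a b c : V) (y : ℝ) : tri a b c 0 y = seg a c y := by
  funext v; unfold tri seg; ring

theorem tri_diag (a b c : V) (x y : ℝ) (h : x = 1 - y) : tri a b c x y = seg b c y := by
  funext v; unfold tri seg; rw [h]; ring

theorem seg_symm (a b : V) (x : ℝ) : seg b a x = seg a b (1 - x) := by
  funext v; unfold seg; ring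

theorem tri_eq_zero (a b c : V) (x y : ℝ) (v : V) (ha : v ≠ a) (hb : v ≠ b) (hc : v ≠ c) :
    tri a b c x y v = 0 := by
  unfold tri
  rw [if_neg ha, if_neg hb, if_neg hc]
  ring

theorem seg_zero (a b : V) (v : V) : seg a b 0 v = if v = a then 1 else 0 := by
  unfold seg; ring

variable [Fintype V]

theorem tri_mem {F : Finset (Finset V)} {σ : Finset V} (hσ : σ ∈ F) {a b c : V} (ha : a ∈ σ)
    (hb : b ∈ σ) (hc : c ∈ σ) {x y : ℝ} (hx : 0 ≤ x) (hy : 0 ≤ y) (hxy : x + y ≤ 1) :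
    tri a b c x y ∈ Space F := by
  have h1 : 0 ≤ 1 - x - y := by linarith
  refine ⟨fun v => ?_, ?_, σ, hσ, fun v hv => ?_⟩
  · unfold tri
    split_ifs <;> linarith
  · unfold tri
    simp only [sum_add_distrib, ← mul_sum, sum_ite_eq', mem_univ, if_true]
    ring
  · by_contra h
    apply hv
    apply tri_eq_zero
    · rintro rfl; exact h ha
    · rintro rfl; exact h hb
    · rintro rfl; exact h hc

theorem seg_mem {F : Finset (Finset V)} {σ : Finset V} (hσ : σ ∈ F) {a b : V} (ha : a ∈ σ)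
    (hb : b ∈ σ) {x : ℝ} (hx : 0 ≤ x) (hx1 : x ≤ 1) : seg a b x ∈ Space F := by
  rw [← tri_zero_right a b a x]
  exact tri_mem hσ ha hb ha hx le_rfl (by linarith)

omit [DecidableEq V] [Fintype V] in
theorem dist_tri_le [DecidableEq V] [Fintype V] (a b c : V) (x y x' y' : ℝ) :
    dist (tri a b c x y) (tri a b c x' y') ≤ 2 * (|x - x'| + |y - y'|) := by
  rw [dist_pi_le_iff (by positivity)]
  intro v
  have h1 := le_abs_self (x - x')
  have h2 := neg_abs_le (x - x')
  have h3 := le_abs_self (y - y')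
  have h4 := neg_abs_le (y - y')
  rw [Real.dist_eq, abs_le]
  unfold tri
  split_ifs <;> constructor <;> linarith

variable {F : Finset (Finset V)} {η : ℝ} {vx : (V → ℝ) → V}

theorem vx_tri (hη : 0 < η) (hvx : ∀ p ∈ Space F, η ≤ p (vx p)) {a b c : V} {x y : ℝ}
    (h : tri a b c x y ∈ Space F) :
    vx (tri a b c x y) = a ∨ vx (tri a b c x y) = b ∨ vx (tri a b c x y) = c := by
  by_contra hcon
  push Not at hcon
  have h1 := hvx _ h
  rw [tri_eq_zero a b c x y _ hcon.1 hcon.2.1 hcon.2.2] at h1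
  linarith

theorem vx_seg (hη : 0 < η) (hvx : ∀ p ∈ Space F, η ≤ p (vx p)) {a b : V} {x : ℝ}
    (h : seg a b x ∈ Space F) : vx (seg a b x) = a ∨ vx (seg a b x) = b := by
  rw [← tri_zero_right a b a x] at h ⊢
  rcases vx_tri hη hvx h with h1 | h1 | h1
  · exact Or.inl h1
  · exact Or.inr h1
  · exact Or.inl h1

theorem vx_seg_zero (hη : 0 < η) (hvx : ∀ p ∈ Space F, η ≤ p (vx p)) {a b : V}
    (h : seg a b 0 ∈ Space F) : vx (seg a b 0) = a := by
  by_contra hcon
  have h1 := hvx _ h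
  rw [seg_zero, if_neg hcon] at h1
  linarith

/-- The 1-cochain: the sum of `ψ` along a fine subdivision of an edge. -/
noncomputable def wSum (ψ : (V → ℝ) → (V → ℝ) → ZMod 2) (M : ℕ) (a b : V) : ZMod 2 :=
  ∑ i ∈ range M, ψ (seg a b ((i : ℝ) / M)) (seg a b (((i + 1 : ℕ) : ℝ) / M))

/-- The number of label changes along an edge is odd. -/
theorem sum_lab_edge (hη : 0 < η) (hvx : ∀ p ∈ Space F, η ≤ p (vx p)) {σ : Finset V} (hσ : σ ∈ F)
    {a b : V} (ha : a ∈ σ) (hb : b ∈ σ) (hab : a ≠ b) {M : ℕ} (hM : 0 < M) :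
    ∑ i ∈ range M, lab a b (vx (seg a b ((i : ℝ) / M))) (vx (seg a b (((i + 1 : ℕ) : ℝ) / M))) =
      1 := by
  have hM' : (0 : ℝ) < M := by exact_mod_cast hM
  let g : ℕ → ZMod 2 := fun i => if vx (seg a b ((i : ℝ) / M)) = a then 1 else 0
  have hm : ∀ i : ℕ, i ≤ M → seg a b ((i : ℝ) / M) ∈ Space F := by
    intro i hi
    refine seg_mem hσ ha hb (by positivity) ?_
    rw [div_le_one hM']
    exact_mod_cast hi
  have h1 : ∀ i ∈ range M, lab a b (vx (seg a b ((i : ℝ) / M)))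
      (vx (seg a b (((i + 1 : ℕ) : ℝ) / M))) = g (i + 1) - g i := by
    intro i hi
    rw [mem_range] at hi
    have h2 := vx_seg hη hvx (hm i hi.le)
    have h3 := vx_seg hη hvx (hm (i + 1) hi)
    simp only [g]
    rw [CharTwo.sub_eq_add]
    have h11 : (1 : ZMod 2) + 1 = 0 := CharTwo.add_self_eq_zero _
    rcases h2 with h2 | h2 <;> rcases h3 with h3 | h3 <;> rw [h2, h3] <;>
      simp [lab, hab, hab.symm, h11]
  rw [sum_congr rfl h1, sum_range_sub g]
  have h4 : g 0 = 1 := by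
    simp only [g, Nat.cast_zero, zero_div]
    rw [if_pos (vx_seg_zero hη hvx (by simpa using hm 0 (Nat.zero_le _)))]
  have h5 : g M = 0 := by
    simp only [g, div_self hM'.ne']
    have h6 : seg a b 1 = seg b a 0 := by rw [seg_symm b a, sub_self]
    have h7 : seg b a 0 ∈ Space F := seg_mem hσ hb ha le_rfl zero_le_one
    rw [h6, if_neg]
    rw [vx_seg_zero hη hvx h7]
    exact hab.symm
  rw [h4, h5, zero_sub]
  exact CharTwo.neg_eq _

theorem cast_div_nonneg (i M : ℕ) : (0 : ℝ) ≤ (i : ℝ) / M := by positivity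

/-- The value of the cocycle on a triangle is the sum of the values of `wSum` on the edges. -/
theorem tri_main (z : Finset V → ZMod 2) (hη : 0 < η) (hvx : ∀ p ∈ Space F, η ≤ p (vx p))
    {δ : ℝ} {ψ : (V → ℝ) → (V → ℝ) → ZMod 2}
    (hψ : ∀ p ∈ Space F, ∀ q ∈ Space F, ∀ r ∈ Space F, dist p q < δ → dist p r < δ → dist q r < δ →
      ψ q r + ψ p r + ψ p q = zExt z (vx p) (vx q) (vx r))
    (m : ℕ) (hm : 4 / ((m + 1 : ℕ) : ℝ) < δ)
    {σ : Finset V} (hσ : σ ∈ F) {a b c : V} (ha : a ∈ σ) (hb : b ∈ σ) (hc : c ∈ σ)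
    (hab : a ≠ b) (hac : a ≠ c) (hbc : b ≠ c) :
    z {a, b, c} = wSum ψ (m + 1) a b + wSum ψ (m + 1) a c + wSum ψ (m + 1) b c := by
  have hM : (0 : ℝ) < ((m + 1 : ℕ) : ℝ) := by positivity
  let P : ℕ → ℕ → V → ℝ := fun i j =>
    tri a b c ((i : ℝ) / ((m + 1 : ℕ) : ℝ)) ((j : ℝ) / ((m + 1 : ℕ) : ℝ))
  have hP : ∀ i j : ℕ, i + j ≤ m + 1 → P i j ∈ Space F := by
    intro i j hij
    refine tri_mem hσ ha hb hc (cast_div_nonneg _ _) (cast_div_nonneg _ _) ?_
    rw [← add_div, div_le_one hM]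
    exact_mod_cast hij
  have hd : ∀ i j i' j' : ℕ, (i' : ℤ) - i ≤ 1 → (i : ℤ) - i' ≤ 1 → (j' : ℤ) - j ≤ 1 →
      (j : ℤ) - j' ≤ 1 → dist (P i j) (P i' j') < δ := by
    intro i j i' j' h1 h2 h3 h4
    refine lt_of_le_of_lt (dist_tri_le a b c _ _ _ _) (lt_of_le_of_lt ?_ hm)
    rw [← sub_div, ← sub_div, abs_div, abs_div, abs_of_pos hM]
    have h5 : |(i : ℝ) - i'| ≤ 1 := by
      rw [abs_le]
      have h1' : (i' : ℝ) - i ≤ 1 := by exact_mod_cast h1
      have h2' : (i : ℝ) - i' ≤ 1 := by exact_mod_cast h2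
      constructor <;> linarith
    have h6 : |(j : ℝ) - j'| ≤ 1 := by
      rw [abs_le]
      have h1' : (j' : ℝ) - j ≤ 1 := by exact_mod_cast h3
      have h2' : (j : ℝ) - j' ≤ 1 := by exact_mod_cast h4
      constructor <;> linarith
    rw [← add_div, ← mul_div_assoc]
    exact div_le_div_of_nonneg_right (by linarith) hM.le
  have hL : ∀ i j : ℕ, i + j ≤ m + 1 → vx (P i j) = a ∨ vx (P i j) = b ∨ vx (P i j) = c :=
    fun i j hij => vx_tri hη hvx (hP i j hij)
  -- the two double countings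
  have G1 := grid_sum (fun i j => ψ (P i j) (P (i + 1) j)) (fun i j => ψ (P i j) (P i (j + 1)))
    (fun i j => ψ (P (i + 1) j) (P i (j + 1))) m
  have G2 := grid_sum (fun i j => lab a b (vx (P i j)) (vx (P (i + 1) j)))
    (fun i j => lab a b (vx (P i j)) (vx (P i (j + 1))))
    (fun i j => lab a b (vx (P (i + 1) j)) (vx (P i (j + 1)))) m
  have hU : ∀ n ∈ range (m + 1), ∀ p ∈ antidiagonal n,
      ψ (P p.1 p.2) (P (p.1 + 1) p.2) + ψ (P p.1 p.2) (P p.1 (p.2 + 1)) +
        ψ (P (p.1 + 1) p.2) (P p.1 (p.2 + 1)) = z {a, b, c} *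
      (lab a b (vx (P p.1 p.2)) (vx (P (p.1 + 1) p.2)) +
        lab a b (vx (P p.1 p.2)) (vx (P p.1 (p.2 + 1))) +
        lab a b (vx (P (p.1 + 1) p.2)) (vx (P p.1 (p.2 + 1)))) := by
    intro n hn p hp
    rw [mem_range] at hn
    rw [HasAntidiagonal.mem_antidiagonal] at hp
    have h1 := hψ (P p.1 p.2) (hP _ _ (by omega)) (P (p.1 + 1) p.2) (hP _ _ (by omega))
      (P p.1 (p.2 + 1)) (hP _ _ (by omega))
      (hd _ _ _ _ (by push_cast; omega) (by push_cast; omega) (by omega) (by omega))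
      (hd _ _ _ _ (by omega) (by omega) (by push_cast; omega) (by push_cast; omega))
      (hd _ _ _ _ (by push_cast; omega) (by push_cast; omega) (by push_cast; omega)
        (by push_cast; omega))
    rw [zExt_eq_lab z hab hac hbc (hL _ _ (by omega)) (hL _ _ (by omega)) (hL _ _ (by omega))]
      at h1
    linear_combination h1
  have hD : ∀ n ∈ range m, ∀ p ∈ antidiagonal n,
      ψ (P (p.1 + 1) p.2) (P p.1 (p.2 + 1)) + ψ (P (p.1 + 1) p.2) (P (p.1 + 1) (p.2 + 1)) +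
        ψ (P p.1 (p.2 + 1)) (P (p.1 + 1) (p.2 + 1)) = z {a, b, c} *
      (lab a b (vx (P (p.1 + 1) p.2)) (vx (P p.1 (p.2 + 1))) +
        lab a b (vx (P (p.1 + 1) p.2)) (vx (P (p.1 + 1) (p.2 + 1))) +
        lab a b (vx (P p.1 (p.2 + 1))) (vx (P (p.1 + 1) (p.2 + 1)))) := by
    intro n hn p hp
    rw [mem_range] at hn
    rw [HasAntidiagonal.mem_antidiagonal] at hp
    have h1 := hψ (P (p.1 + 1) p.2) (hP _ _ (by omega)) (P p.1 (p.2 + 1)) (hP _ _ (by omega))
      (P (p.1 + 1) (p.2 + 1)) (hP _ _ (by omega))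
      (hd _ _ _ _ (by push_cast; omega) (by push_cast; omega) (by push_cast; omega)
        (by push_cast; omega))
      (hd _ _ _ _ (by omega) (by omega) (by push_cast; omega) (by push_cast; omega))
      (hd _ _ _ _ (by push_cast; omega) (by push_cast; omega) (by omega) (by omega))
    rw [zExt_eq_lab z hab hac hbc (hL _ _ (by omega)) (hL _ _ (by omega)) (hL _ _ (by omega))]
      at h1
    linear_combination h1
  -- the left hand sides
  have hLHS := congrArg₂ (· + ·)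
    (sum_congr rfl fun n hn => sum_congr rfl fun p hp => hU n hn p hp)
    (sum_congr rfl fun n hn => sum_congr rfl fun p hp => hD n hn p hp)
  simp only [← mul_sum] at hLHS
  rw [← mul_add] at hLHS
  have hRHS := (G1.symm.trans hLHS).trans (congrArg (fun x => z {a, b, c} * x) G2)
  -- boundary terms
  have e1 : ∀ i, P i 0 = seg a b ((i : ℝ) / ((m + 1 : ℕ) : ℝ)) := by
    intro i
    simp only [P, Nat.cast_zero, zero_div]
    exact tri_zero_right a b c _
  have e2 : ∀ j, P 0 j = seg a c ((j : ℝ) / ((m + 1 : ℕ) : ℝ)) := by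
    intro j
    simp only [P, Nat.cast_zero, zero_div]
    exact tri_zero_left a b c _
  have e3 : ∀ i j, i + j = m + 1 → P i j = seg b c ((j : ℝ) / ((m + 1 : ℕ) : ℝ)) := by
    intro i j hij
    apply tri_diag
    have : (i : ℝ) = ((m + 1 : ℕ) : ℝ) - j := by
      rw [← hij]; push_cast; ring
    rw [this, sub_div, div_self hM.ne']
  have hdiag : ∀ f : (V → ℝ) → (V → ℝ) → ZMod 2,
      ∑ p ∈ antidiagonal m, f (P (p.1 + 1) p.2) (P p.1 (p.2 + 1)) =
      ∑ i ∈ range (m + 1), f (seg b c ((i : ℝ) / ((m + 1 : ℕ) : ℝ)))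
        (seg b c (((i + 1 : ℕ) : ℝ) / ((m + 1 : ℕ) : ℝ))) := by
    intro f
    rw [Nat.sum_antidiagonal_eq_sum_range_succ_mk]
    rw [← sum_range_reflect]
    refine sum_congr rfl fun k hk => ?_
    rw [mem_range] at hk
    have h1 : m + 1 - 1 - k = m - k := by omega
    have h2 : m - (m - k) = k := by omega
    simp only [h1, h2]
    rw [e3 (m - k + 1) k (by omega), e3 (m - k) (k + 1) (by omega)]
  have hdiag1 := hdiag ψ
  have hdiag2 := hdiag fun p q => lab a b (vx p) (vx q)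
  rw [hdiag1, hdiag2] at hRHS
  simp only [e1, e2] at hRHS
  have h1 := sum_lab_edge hη hvx hσ ha hb hab (Nat.succ_pos m)
  have h2 : ∑ j ∈ range (m + 1), lab a b (vx (seg a c ((j : ℝ) / ((m + 1 : ℕ) : ℝ))))
      (vx (seg a c (((j + 1 : ℕ) : ℝ) / ((m + 1 : ℕ) : ℝ)))) = 0 := by
    refine sum_eq_zero fun j hj => ?_
    rw [mem_range] at hj
    have h3 := vx_seg hη hvx (seg_mem hσ ha hc (cast_div_nonneg j (m + 1)) (by
      rw [div_le_one hM]; exact_mod_cast hj.le))
    have h4 := vx_seg hη hvx (seg_mem hσ ha hc (cast_div_nonneg (j + 1) (m + 1)) (by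
      rw [div_le_one hM]; exact_mod_cast hj))
    rcases h3 with h3 | h3 <;> rcases h4 with h4 | h4 <;> rw [h3, h4] <;>
      simp [lab, hab, hbc.symm, hac.symm]
  have h3 : ∑ j ∈ range (m + 1), lab a b (vx (seg b c ((j : ℝ) / ((m + 1 : ℕ) : ℝ))))
      (vx (seg b c (((j + 1 : ℕ) : ℝ) / ((m + 1 : ℕ) : ℝ)))) = 0 := by
    refine sum_eq_zero fun j hj => ?_
    rw [mem_range] at hj
    have h3 := vx_seg hη hvx (seg_mem hσ hb hc (cast_div_nonneg j (m + 1)) (by
      rw [div_le_one hM]; exact_mod_cast hj.le))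
    have h4 := vx_seg hη hvx (seg_mem hσ hb hc (cast_div_nonneg (j + 1) (m + 1)) (by
      rw [div_le_one hM]; exact_mod_cast hj))
    rcases h3 with h3 | h3 <;> rcases h4 with h4 | h4 <;> rw [h3, h4] <;>
      simp [lab, hab.symm, hbc.symm, hac.symm]
  rw [Nat.succ_eq_add_one] at h1
  rw [h1, h2, h3, add_zero, add_zero, mul_one] at hRHS
  rw [← hRHS]
  rfl

theorem psi_symm {z : Finset V → ZMod 2}
    {δ : ℝ} {ψ : (V → ℝ) → (V → ℝ) → ZMod 2} (hδ : 0 < δ)
    (hψ : ∀ p ∈ Space F, ∀ q ∈ Space F, ∀ r ∈ Space F, dist p q < δ → dist p r < δ → dist q r < δ →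
      ψ q r + ψ p r + ψ p q = zExt z (vx p) (vx q) (vx r))
    {p q : V → ℝ} (hp : p ∈ Space F) (hq : q ∈ Space F) (hpq : dist p q < δ) : ψ q p = ψ p q := by
  have h1 := hψ p hp p hp p hp (by rw [dist_self]; exact hδ) (by rw [dist_self]; exact hδ)
    (by rw [dist_self]; exact hδ)
  rw [zExt_self12] at h1
  have h2 := hψ p hp q hq p hp hpq (by rw [dist_self]; exact hδ) (by rw [dist_comm]; exact hpq)
  rw [zExt_self13] at h2
  have h3 : ψ p p + ψ p p = 0 := CharTwo.add_self_eq_zero _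
  have h4 : ψ p q + ψ p q = 0 := CharTwo.add_self_eq_zero _
  linear_combination h2 - h1 + h3 - h4

theorem wSum_symm {z : Finset V → ZMod 2}
    {δ : ℝ} {ψ : (V → ℝ) → (V → ℝ) → ZMod 2} (hδ : 0 < δ)
    (hψ : ∀ p ∈ Space F, ∀ q ∈ Space F, ∀ r ∈ Space F, dist p q < δ → dist p r < δ → dist q r < δ →
      ψ q r + ψ p r + ψ p q = zExt z (vx p) (vx q) (vx r))
    (m : ℕ) (hm : 4 / ((m + 1 : ℕ) : ℝ) < δ)
    {σ : Finset V} (hσ : σ ∈ F) {a b : V} (ha : a ∈ σ) (hb : b ∈ σ) :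
    wSum ψ (m + 1) b a = wSum ψ (m + 1) a b := by
  have hM : (0 : ℝ) < ((m + 1 : ℕ) : ℝ) := by positivity
  unfold wSum
  rw [← sum_range_reflect]
  refine sum_congr rfl fun i hi => ?_
  rw [mem_range] at hi
  have h1 : ((m + 1 - 1 - i : ℕ) : ℝ) = ((m + 1 : ℕ) : ℝ) - ((i + 1 : ℕ) : ℝ) := by
    rw [← Nat.cast_sub (by omega)]
    congr 1
    omega
  have h2 : ((m + 1 - 1 - i + 1 : ℕ) : ℝ) = ((m + 1 : ℕ) : ℝ) - (i : ℝ) := by
    rw [← Nat.cast_sub (by omega)]
    congr 1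
    omega
  rw [h1, h2, seg_symm a b, seg_symm a b, sub_div, sub_div, div_self hM.ne', sub_sub_cancel,
    sub_sub_cancel]
  have hi1 : seg a b ((i : ℝ) / ((m + 1 : ℕ) : ℝ)) ∈ Space F :=
    seg_mem hσ ha hb (cast_div_nonneg _ _) (by rw [div_le_one hM]; exact_mod_cast hi.le)
  have hi2 : seg a b (((i + 1 : ℕ) : ℝ) / ((m + 1 : ℕ) : ℝ)) ∈ Space F :=
    seg_mem hσ ha hb (cast_div_nonneg _ _) (by rw [div_le_one hM]; exact_mod_cast hi)
  refine psi_symm hδ hψ hi1 hi2 ?_
  rw [← tri_zero_right a b a, ← tri_zero_right a b a]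
  refine lt_of_le_of_lt (dist_tri_le a b a _ _ _ _) (lt_of_le_of_lt ?_ hm)
  rw [← sub_div, sub_self, abs_zero, add_zero, abs_div, abs_of_pos hM, ← mul_div_assoc]
  refine div_le_div_of_nonneg_right ?_ hM.le
  have : |(i : ℝ) - ((i + 1 : ℕ) : ℝ)| = 1 := by
    have : (i : ℝ) - ((i + 1 : ℕ) : ℝ) = -1 := by push_cast; ring
    rw [this]; norm_num
  rw [this]; norm_num

/-- **T5**: the second cohomology mod 2 of a finite complex with contractible space vanishes. -/
theorem h2_of_contractible (F : Finset (Finset V)) (h : ContractibleSpace (Space F)) :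
    H2Zero F := by
  classical
  intro z hz
  obtain ⟨⟨p0, hp0⟩⟩ : Nonempty (Space F) := inferInstance
  haveI : Nonempty V := by
    by_contra hV
    rw [not_nonempty_iff] at hV
    have := hp0.2.1
    rw [univ_eq_empty, sum_empty] at this
    exact zero_ne_one this
  obtain ⟨η, vx, hη, hvx⟩ := exists_vx F
  obtain ⟨δ, ψ, hδ, hψ⟩ := exists_psi F z hz hη hvx h
  obtain ⟨m, hm⟩ := exists_nat_gt (4 / δ)
  have hm' : 4 / ((m + 1 : ℕ) : ℝ) < δ := by
    have h1 : (0 : ℝ) < ((m + 1 : ℕ) : ℝ) := by positivity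
    rw [div_lt_iff₀ h1]
    rw [div_lt_iff₀ hδ] at hm
    push_cast
    nlinarith
  refine ⟨fun e => if h : ∃ ab : V × V, ab.1 ≠ ab.2 ∧ e = {ab.1, ab.2} then
    wSum ψ (m + 1) h.choose.1 h.choose.2 else 0, ?_⟩
  have hw : ∀ σ ∈ F, ∀ a ∈ σ, ∀ b ∈ σ, a ≠ b →
      (if h : ∃ ab : V × V, ab.1 ≠ ab.2 ∧ ({a, b} : Finset V) = {ab.1, ab.2} then
        wSum ψ (m + 1) h.choose.1 h.choose.2 else 0) = wSum ψ (m + 1) a b := by
    intro σ hσ a ha b hb hab
    have hex : ∃ ab : V × V, ab.1 ≠ ab.2 ∧ ({a, b} : Finset V) = {ab.1, ab.2} :=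
      ⟨(a, b), hab, rfl⟩
    rw [dif_pos hex]
    obtain ⟨h1, h2⟩ := hex.choose_spec
    set ab := hex.choose
    have h3 : ({a, b} : Set V) = {ab.1, ab.2} := by
      have := congrArg (fun s : Finset V => (s : Set V)) h2
      simpa using this
    rcases Set.pair_eq_pair_iff.1 h3 with ⟨h4, h5⟩ | ⟨h4, h5⟩
    · rw [← h4, ← h5]
    · rw [← h4, ← h5]
      exact wSum_symm hδ hψ m hm' hσ ha hb
  intro σ hσ t ht
  rw [mem_powersetCard] at ht
  obtain ⟨a, b, c, hab, hac, hbc, rfl⟩ := card_eq_three.1 ht.2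
  have ha : a ∈ σ := ht.1 (by simp)
  have hb : b ∈ σ := ht.1 (by simp)
  have hc : c ∈ σ := ht.1 (by simp)
  rw [sum_powersetCard_two hab hac hbc, hw σ hσ b hb c hc hbc, hw σ hσ a ha c hc hac,
    hw σ hσ a ha b hb hab, tri_main z hη hvx hψ m hm' hσ ha hb hc hab hac hbc]
  ring

end triangle

end Pool.Agent.Helper26.LC
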