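import Pool.Agent.Helper26.LC.Defs

/-!
# LC-T5: the second cohomology mod 2 of a complex with contractible space vanishes
-/

set_option autoImplicit false

namespace Pool.Agent.Helper26.LC

open Finset

section cochain

variable {V : Type*} [DecidableEq V]

/-- The extension of a 2-cochain to triples of vertices. -/
def zExt (z : Finset V → ZMod 2) (a b c : V) : ZMod 2 :=
  if a ≠ b ∧ a ≠ c ∧ b ≠ c then z {a, b, c} else 0

theorem zExt_swap12 (z : Finset V → ZMod 2) (a b c : V) : zExt z a b c = zExt z b a c := by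
  unfold zExt
  by_cases h : a ≠ b ∧ a ≠ c ∧ b ≠ c
  · rw [if_pos h, if_pos ⟨h.1.symm, h.2.2, h.2.1⟩, Finset.insert_comm]
  · rw [if_neg h, if_neg (fun h' => h ⟨h'.1.symm, h'.2.2, h'.2.1⟩)]

theorem zExt_swap23 (z : Finset V → ZMod 2) (a b c : V) : zExt z a b c = zExt z a c b := by
  unfold zExt
  by_cases h : a ≠ b ∧ a ≠ c ∧ b ≠ c
  · rw [if_pos h, if_pos ⟨h.2.1, h.1, h.2.2.symm⟩, Finset.pair_comm b c]
  · rw [if_neg h, if_neg (fun h' => h ⟨h'.2.1, h'.1, h'.2.2.symm⟩)]

theorem zExt_self12 (z : Finset V → ZMod 2) (a c : V) : zExt z a a c = 0 := by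
  unfold zExt
  rw [if_neg (fun h => h.1 rfl)]

theorem zExt_self23 (z : Finset V → ZMod 2) (a b : V) : zExt z a b b = 0 := by
  unfold zExt
  rw [if_neg (fun h => h.2.2 rfl)]

theorem zExt_self13 (z : Finset V → ZMod 2) (a b : V) : zExt z a b a = 0 := by
  unfold zExt
  rw [if_neg (fun h => h.2.1 rfl)]

/-- The subsets of codimension one are obtained by erasing an element. -/
theorem sum_powersetCard_erase {τ : Finset V} {n : ℕ} (h : τ.card = n + 1)
    (z : Finset V → ZMod 2) : ∑ t ∈ τ.powersetCard n, z t = ∑ x ∈ τ, z (τ.erase x) := by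
  symm
  refine Finset.sum_bij (fun x _ => τ.erase x) ?_ ?_ ?_ ?_
  · intro x hx
    rw [mem_powersetCard]
    exact ⟨erase_subset _ _, by rw [card_erase_of_mem hx, h]; rfl⟩
  · intro x hx y hy hxy
    by_contra hne
    have : x ∈ τ.erase y := mem_erase.2 ⟨hne, hx⟩
    rw [← hxy] at this
    exact notMem_erase x τ this
  · intro t ht
    rw [mem_powersetCard] at ht
    have h1 : (τ \ t).card = 1 := by
      rw [card_sdiff_of_subset ht.1, h, ht.2]
      omega
    obtain ⟨x, hx⟩ := card_eq_one.1 h1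
    have hxm : x ∈ τ \ t := by rw [hx]; exact mem_singleton_self x
    rw [mem_sdiff] at hxm
    refine ⟨x, hxm.1, ?_⟩
    rw [erase_eq, ← hx, Finset.sdiff_sdiff_eq_self ht.1]
  · intro x _
    rfl

theorem sum_powersetCard_two {a b c : V} (hab : a ≠ b) (hac : a ≠ c) (hbc : b ≠ c)
    (w : Finset V → ZMod 2) :
    ∑ e ∈ ({a, b, c} : Finset V).powersetCard 2, w e = w {b, c} + w {a, c} + w {a, b} := by
  have ha : a ∉ ({b, c} : Finset V) := by simp [hab, hac]
  have hb : b ∉ ({c} : Finset V) := by simp [hbc]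
  rw [sum_powersetCard_erase (n := 2) (by
    rw [card_insert_of_notMem ha, card_insert_of_notMem hb, card_singleton])]
  rw [sum_insert ha, sum_insert hb, sum_singleton]
  have h1 : ({a, b, c} : Finset V).erase a = {b, c} := erase_insert ha
  have h2 : ({a, b, c} : Finset V).erase b = {a, c} := by
    ext x; simp only [mem_erase, mem_insert, mem_singleton]
    constructor
    · rintro ⟨h, h' | h' | h'⟩ <;> tauto
    · rintro (h | h) <;> subst h <;> tauto
  have h3 : ({a, b, c} : Finset V).erase c = {a, b} := by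
    ext x; simp only [mem_erase, mem_insert, mem_singleton]
    constructor
    · rintro ⟨h, h' | h' | h'⟩ <;> tauto
    · rintro (h | h) <;> subst h <;> tauto
  rw [h1, h2, h3]
  ring

/-- The extension of a cocycle is a cocycle. -/
theorem zExt_cocycle (F : Finset (Finset V)) (z : Finset V → ZMod 2)
    (hz : ∀ σ ∈ F, ∀ τ ∈ σ.powersetCard 4, ∑ t ∈ τ.powersetCard 3, z t = 0)
    {σ : Finset V} (hσ : σ ∈ F) {a b c d : V} (ha : a ∈ σ) (hb : b ∈ σ) (hc : c ∈ σ) (hd : d ∈ σ) :
    zExt z b c d + zExt z a c d + zExt z a b d + zExt z a b c = 0 := by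
  by_cases hab : a = b
  · subst hab
    rw [zExt_self12, zExt_self12, add_zero, add_zero]
    exact CharTwo.add_self_eq_zero _
  by_cases hac : a = c
  · subst hac
    rw [zExt_self12, zExt_self13, zExt_swap12 z b a d, add_zero, add_zero]
    exact CharTwo.add_self_eq_zero _
  by_cases had : a = d
  · subst had
    rw [zExt_self13, zExt_self13, zExt_swap23 z b c a, zExt_swap12 z b a c, add_zero, add_zero]
    exact CharTwo.add_self_eq_zero _
  by_cases hbc : b = c
  · subst hbc
    rw [zExt_self12, zExt_self23, zero_add, add_zero]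
    exact CharTwo.add_self_eq_zero _
  by_cases hbd : b = d
  · subst hbd
    rw [zExt_self13, zExt_self23, zExt_swap23 z a c b, zero_add, add_zero]
    exact CharTwo.add_self_eq_zero _
  by_cases hcd : c = d
  · subst hcd
    rw [zExt_self23, zExt_self23, zero_add, zero_add]
    exact CharTwo.add_self_eq_zero _
  have h1 : a ∉ ({b, c, d} : Finset V) := by simp [hab, hac, had]
  have h2 : b ∉ ({c, d} : Finset V) := by simp [hbc, hbd]
  have h3 : c ∉ ({d} : Finset V) := by simp [hcd]
  have hcard : ({a, b, c, d} : Finset V).card = 3 + 1 := by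
    rw [card_insert_of_notMem h1, card_insert_of_notMem h2, card_insert_of_notMem h3,
      card_singleton]
  have hmem : ({a, b, c, d} : Finset V) ∈ σ.powersetCard 4 := by
    rw [mem_powersetCard]
    refine ⟨?_, hcard⟩
    intro x hx
    simp only [mem_insert, mem_singleton] at hx
    rcases hx with rfl | rfl | rfl | rfl <;> assumption
  have h4 := hz σ hσ _ hmem
  rw [sum_powersetCard_erase hcard, sum_insert h1, sum_insert h2, sum_insert h3, sum_singleton]
    at h4
  have e1 : ({a, b, c, d} : Finset V).erase a = {b, c, d} := erase_insert h1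
  have e2 : ({a, b, c, d} : Finset V).erase b = {a, c, d} := by
    ext x; simp only [mem_erase, mem_insert, mem_singleton]
    constructor
    · rintro ⟨h, h' | h' | h' | h'⟩ <;> tauto
    · rintro (h | h | h) <;> subst h <;> tauto
  have e3 : ({a, b, c, d} : Finset V).erase c = {a, b, d} := by
    ext x; simp only [mem_erase, mem_insert, mem_singleton]
    constructor
    · rintro ⟨h, h' | h' | h' | h'⟩ <;> tauto
    · rintro (h | h | h) <;> subst h <;> tauto
  have e4 : ({a, b, c, d} : Finset V).erase d = {a, b, c} := by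
    ext x; simp only [mem_erase, mem_insert, mem_singleton]
    constructor
    · rintro ⟨h, h' | h' | h' | h'⟩ <;> tauto
    · rintro (h | h | h) <;> subst h <;> tauto
  rw [e1, e2, e3, e4] at h4
  unfold zExt
  rw [if_pos ⟨hbc, hbd, hcd⟩, if_pos ⟨hac, had, hcd⟩, if_pos ⟨hab, had, hbd⟩,
    if_pos ⟨hab, hac, hbc⟩]
  rw [← h4]
  ring

end cochain

section grid

/-- Double counting of the edges of the subdivided triangle. -/
theorem grid_sum (h v d : ℕ → ℕ → ZMod 2) (m : ℕ) :
    (∑ n ∈ range (m + 1), ∑ p ∈ antidiagonal n, (h p.1 p.2 + v p.1 p.2 + d p.1 p.2)) +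
      (∑ n ∈ range m, ∑ p ∈ antidiagonal n, (d p.1 p.2 + v (p.1 + 1) p.2 + h p.1 (p.2 + 1))) =
    (∑ i ∈ range (m + 1), h i 0) + (∑ j ∈ range (m + 1), v 0 j) +
      ∑ p ∈ antidiagonal m, d p.1 p.2 := by
  induction m with
  | zero => simp
  | succ m ih =>
    rw [sum_range_succ
        (fun n => ∑ p ∈ antidiagonal n, (d p.1 p.2 + v (p.1 + 1) p.2 + h p.1 (p.2 + 1))) m,
      sum_range_succ _ (m + 1), sum_range_succ _ (m + 1), sum_range_succ _ (m + 1)]
    have h1 : ∑ p ∈ antidiagonal (m + 1), (h p.1 p.2 + v p.1 p.2 + d p.1 p.2) =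
        (h (m + 1) 0 + ∑ p ∈ antidiagonal m, h p.1 (p.2 + 1)) +
        (v 0 (m + 1) + ∑ p ∈ antidiagonal m, v (p.1 + 1) p.2) +
        ∑ p ∈ antidiagonal (m + 1), d p.1 p.2 := by
      rw [sum_add_distrib, sum_add_distrib,
        Nat.sum_antidiagonal_succ' (f := fun p => h p.1 p.2),
        Nat.sum_antidiagonal_succ (f := fun p => v p.1 p.2)]
    rw [h1]
    rw [sum_add_distrib (s := antidiagonal m), sum_add_distrib (s := antidiagonal m)]
    set A := ∑ n ∈ range (m + 1), ∑ p ∈ antidiagonal n, (h p.1 p.2 + v p.1 p.2 + d p.1 p.2)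
    set B := ∑ n ∈ range m, ∑ p ∈ antidiagonal n, (d p.1 p.2 + v (p.1 + 1) p.2 + h p.1 (p.2 + 1))
    set X := ∑ p ∈ antidiagonal m, h p.1 (p.2 + 1)
    set Y := ∑ p ∈ antidiagonal m, v (p.1 + 1) p.2
    set D := ∑ p ∈ antidiagonal m, d p.1 p.2
    set D' := ∑ p ∈ antidiagonal (m + 1), d p.1 p.2
    set P := ∑ i ∈ range (m + 1), h i 0
    set Q := ∑ j ∈ range (m + 1), v 0 j
    have hX : X + X = 0 := CharTwo.add_self_eq_zero _
    have hY : Y + Y = 0 := CharTwo.add_self_eq_zero _
    have hD : D + D = 0 := CharTwo.add_self_eq_zero _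
    linear_combination ih + hX + hY + hD

end grid

section space

variable {V : Type*} [DecidableEq V] [Fintype V]

theorem isCompact_space (F : Finset (Finset V)) : IsCompact (Space F) := by
  have h1 : Space F = stdSimplex ℝ V ∩ ⋃ σ ∈ F, {p | ∀ v, p v ≠ 0 → v ∈ σ} := by
    ext p
    simp only [Space, stdSimplex, Set.mem_inter_iff, Set.mem_ofPred_eq, Set.mem_iUnion, exists_prop]
    tauto
  rw [h1]
  refine (isCompact_stdSimplex ℝ V).inter_right ?_
  refine isClosed_biUnion_finset fun σ _ => ?_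
  have h2 : {p : V → ℝ | ∀ v, p v ≠ 0 → v ∈ σ} = ⋂ v ∈ (σ : Set V)ᶜ, {p | p v = 0} := by
    ext p
    simp only [Set.mem_ofPred_eq, Set.mem_iInter, Set.mem_compl_iff, mem_coe]
    constructor
    · intro h v hv
      by_contra h'
      exact hv (h v h')
    · intro h v hv
      by_contra h'
      exact hv (h v h')
  rw [h2]
  refine isClosed_biInter fun v _ => ?_
  exact isClosed_eq (continuous_apply v) continuous_const


/-- Every point of the space has a large barycentric coordinate. -/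
theorem exists_vx [Nonempty V] (F : Finset (Finset V)) :
    ∃ (η : ℝ) (vx : (V → ℝ) → V), 0 < η ∧ ∀ p ∈ Space F, η ≤ p (vx p) := by
  classical
  have hV : (0 : ℝ) < Fintype.card V := by exact_mod_cast Fintype.card_pos
  refine ⟨1 / Fintype.card V, fun p => if h : ∃ v, 1 / (Fintype.card V : ℝ) ≤ p v then h.choose
    else Classical.arbitrary V, by positivity, ?_⟩
  intro p hp
  have h : ∃ v, 1 / (Fintype.card V : ℝ) ≤ p v := by
    by_contra hcon
    push Not at hcon
    have h1 : ∑ v, p v < ∑ _v : V, 1 / (Fintype.card V : ℝ) :=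
      sum_lt_sum_of_nonempty univ_nonempty fun v _ => hcon v
    rw [sum_const, card_univ, nsmul_eq_mul, mul_one_div_cancel hV.ne', hp.2.1] at h1
    exact lt_irrefl _ h1
  simp only [dif_pos h]
  exact h.choose_spec

/-- The cocycle identity for close points. -/
theorem close_cocycle (F : Finset (Finset V)) (z : Finset V → ZMod 2)
    (hz : ∀ σ ∈ F, ∀ τ ∈ σ.powersetCard 4, ∑ t ∈ τ.powersetCard 3, z t = 0)
    {η : ℝ} {vx : (V → ℝ) → V} (hη : 0 < η) (hvx : ∀ p ∈ Space F, η ≤ p (vx p))
    {p q r s : V → ℝ} (hp : p ∈ Space F) (hq : q ∈ Space F) (hr : r ∈ Space F) (hs : s ∈ Space F)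
    (hpq : dist p q < η) (hpr : dist p r < η) (hps : dist p s < η) :
    zExt z (vx q) (vx r) (vx s) + zExt z (vx p) (vx r) (vx s) + zExt z (vx p) (vx q) (vx s) +
      zExt z (vx p) (vx q) (vx r) = 0 := by
  obtain ⟨h0, h1, σ, hσ, hsup⟩ := hp
  have key : ∀ q ∈ Space F, dist p q < η → vx q ∈ σ := by
    intro q hq hd
    apply hsup
    intro h
    have h2 := dist_le_pi_dist p q (vx q)
    rw [h, Real.dist_eq, zero_sub, abs_neg] at h2
    have h3 := le_abs_self (q (vx q))
    have h4 := hvx q hq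
    linarith
  have hp' : p ∈ Space F := ⟨h0, h1, σ, hσ, hsup⟩
  exact zExt_cocycle F z hz hσ (key p hp' (by rw [dist_self]; exact hη)) (key q hq hpq)
    (key r hr hpr) (key s hs hps)

/-- Part (a): the prism operator of a contraction. -/
theorem exists_psi (F : Finset (Finset V)) (z : Finset V → ZMod 2)
    (hz : ∀ σ ∈ F, ∀ τ ∈ σ.powersetCard 4, ∑ t ∈ τ.powersetCard 3, z t = 0)
    {η : ℝ} {vx : (V → ℝ) → V} (hη : 0 < η) (hvx : ∀ p ∈ Space F, η ≤ p (vx p))
    (hcontr : ContractibleSpace (Space F)) :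
    ∃ (δ : ℝ) (ψ : (V → ℝ) → (V → ℝ) → ZMod 2), 0 < δ ∧ ∀ p ∈ Space F, ∀ q ∈ Space F,
      ∀ r ∈ Space F, dist p q < δ → dist p r < δ → dist q r < δ →
      ψ q r + ψ p r + ψ p q = zExt z (vx p) (vx q) (vx r) := by
  classical
  haveI : CompactSpace (Space F) := isCompact_iff_compactSpace.1 (isCompact_space F)
  obtain ⟨c, ⟨H⟩⟩ := id_nullhomotopic (Space F)
  have hunif : UniformContinuous (fun x : unitInterval × Space F => H x) :=
    CompactSpace.uniformContinuous_of_continuous H.continuous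
  obtain ⟨δ, hδ, hH⟩ := Metric.uniformContinuous_iff.1 hunif (η / 2) (by linarith)
  obtain ⟨N, hN⟩ := exists_nat_gt (1 / δ)
  have hN0 : (0 : ℝ) < N := lt_trans (by positivity) hN
  have hN1 : 1 / (N : ℝ) < δ := by
    rw [div_lt_iff₀ hN0]
    rw [div_lt_iff₀ hδ] at hN
    linarith
  let t : ℕ → unitInterval := fun i => Set.projIcc 0 1 zero_le_one ((i : ℝ) / N)
  have ht0 : t 0 = 0 := by
    simp only [t, Nat.cast_zero, zero_div]
    exact Set.projIcc_left _
  have htN : t N = 1 := by
    simp only [t, div_self hN0.ne']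
    exact Set.projIcc_right _
  have hts : ∀ i, dist (t i) (t (i + 1)) < δ := by
    intro i
    have h1 := (LipschitzWith.projIcc (zero_le_one (α := ℝ))).dist_le_mul ((i : ℝ) / N)
      (((i + 1 : ℕ) : ℝ) / N)
    refine lt_of_le_of_lt h1 ?_
    rw [Real.dist_eq]
    have : (i : ℝ) / N - ((i + 1 : ℕ) : ℝ) / N = - (1 / N) := by push_cast; ring
    rw [this, abs_neg, abs_of_pos (by positivity)]
    simpa using hN1
  let G : ℕ → (V → ℝ) → (V → ℝ) := fun i p =>
    if hp : p ∈ Space F then (H (t i, ⟨p, hp⟩) : V → ℝ) else p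
  have hG : ∀ i p (hp : p ∈ Space F), G i p = (H (t i, ⟨p, hp⟩) : V → ℝ) := by
    intro i p hp
    simp only [G, dif_pos hp]
  have hGm : ∀ i p, p ∈ Space F → G i p ∈ Space F := by
    intro i p hp
    rw [hG i p hp]
    exact (H (t i, ⟨p, hp⟩)).2
  have hG0 : ∀ p, p ∈ Space F → G 0 p = p := by
    intro p hp
    rw [hG 0 p hp, ht0]
    exact congrArg Subtype.val (H.apply_zero ⟨p, hp⟩)
  have hGN : ∀ p, p ∈ Space F → G N p = c := by
    intro p hp
    rw [hG N p hp, htN]
    exact congrArg Subtype.val (H.apply_one ⟨p, hp⟩)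
  have hG1 : ∀ i p, p ∈ Space F → dist (G i p) (G (i + 1) p) < η / 2 := by
    intro i p hp
    rw [hG i p hp, hG (i + 1) p hp]
    have : dist ((t i, ⟨p, hp⟩) : unitInterval × Space F) (t (i + 1), ⟨p, hp⟩) < δ := by
      rw [Prod.dist_eq]
      simp only [dist_self]
      exact max_lt (hts i) hδ
    exact hH this
  have hG2 : ∀ i p q, p ∈ Space F → q ∈ Space F → dist p q < δ →
      dist (G i p) (G i q) < η / 2 := by
    intro i p q hp hq hpq
    rw [hG i p hp, hG i q hq]
    have : dist ((t i, ⟨p, hp⟩) : unitInterval × Space F) (t i, ⟨q, hq⟩) < δ := by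
      rw [Prod.dist_eq]
      simp only [dist_self]
      exact max_lt hδ hpq
    exact hH this
  refine ⟨δ, fun p q => ∑ i ∈ range N,
    (zExt z (vx (G i p)) (vx (G (i + 1) p)) (vx (G (i + 1) q)) +
      zExt z (vx (G i p)) (vx (G i q)) (vx (G (i + 1) q))), hδ, ?_⟩
  intro p hp q hq r hr hpq hpr hqr
  simp only
  rw [← sum_add_distrib, ← sum_add_distrib]
  have hstep : ∀ i ∈ range N,
      (zExt z (vx (G i q)) (vx (G (i + 1) q)) (vx (G (i + 1) r)) +
        zExt z (vx (G i q)) (vx (G i r)) (vx (G (i + 1) r)) +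
      (zExt z (vx (G i p)) (vx (G (i + 1) p)) (vx (G (i + 1) r)) +
        zExt z (vx (G i p)) (vx (G i r)) (vx (G (i + 1) r))) +
      (zExt z (vx (G i p)) (vx (G (i + 1) p)) (vx (G (i + 1) q)) +
        zExt z (vx (G i p)) (vx (G i q)) (vx (G (i + 1) q)))) =
      zExt z (vx (G (i + 1) p)) (vx (G (i + 1) q)) (vx (G (i + 1) r)) -
        zExt z (vx (G i p)) (vx (G i q)) (vx (G i r)) := by
    intro i _
    have d1 := hG1 i p hp
    have d1' := hG1 i q hq
    have d2 := hG2 i p q hp hq hpq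
    have d3 := hG2 i p r hp hr hpr
    have d4 := hG2 (i + 1) p q hp hq hpq
    have d5 := hG2 (i + 1) p r hp hr hpr
    have d6 : dist (G i p) (G (i + 1) q) < η :=
      lt_of_le_of_lt (dist_triangle _ (G (i + 1) p) _) (by linarith)
    have d7 : dist (G i p) (G (i + 1) r) < η :=
      lt_of_le_of_lt (dist_triangle _ (G (i + 1) p) _) (by linarith)
    have c1 := close_cocycle F z hz hη hvx (hGm i p hp) (hGm (i + 1) p hp) (hGm (i + 1) q hq)
      (hGm (i + 1) r hr) (by linarith) d6 d7
    have c2 := close_cocycle F z hz hη hvx (hGm i p hp) (hGm i q hq) (hGm (i + 1) q hq)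
      (hGm (i + 1) r hr) (by linarith) d6 d7
    have c3 := close_cocycle F z hz hη hvx (hGm i p hp) (hGm i q hq) (hGm i r hr)
      (hGm (i + 1) r hr) (by linarith) (by linarith) d7
    have t1 : zExt z (vx (G i p)) (vx (G (i + 1) q)) (vx (G (i + 1) r)) +
      zExt z (vx (G i p)) (vx (G (i + 1) q)) (vx (G (i + 1) r)) = 0 :=
      CharTwo.add_self_eq_zero _
    have t2 : zExt z (vx (G i p)) (vx (G i q)) (vx (G (i + 1) r)) +
      zExt z (vx (G i p)) (vx (G i q)) (vx (G (i + 1) r)) = 0 :=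
      CharTwo.add_self_eq_zero _
    have t3 : zExt z (vx (G (i + 1) p)) (vx (G (i + 1) q)) (vx (G (i + 1) r)) +
      zExt z (vx (G (i + 1) p)) (vx (G (i + 1) q)) (vx (G (i + 1) r)) = 0 :=
      CharTwo.add_self_eq_zero _
    linear_combination c1 + c2 + c3 - t1 - t2 - t3
  rw [sum_congr rfl hstep, sum_range_sub (fun i => zExt z (vx (G i p)) (vx (G i q)) (vx (G i r)))]
  rw [hG0 p hp, hG0 q hq, hG0 r hr, hGN p hp, hGN q hq, hGN r hr, zExt_self12, zero_sub]
  exact CharTwo.neg_eq _

end space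

end Pool.Agent.Helper26.LC
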